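import Pool.Agent.MP_5c28a4_al.H89S.Spec

/-!
An identity in one variable, of degree zero in the operator.
-/

set_option autoImplicit false

namespace Pool.Agent.MP_5c28a4_al.H89S

namespace Id0A

open scoped commutatorElement
open Finsupp Multiplicative

abbrev F : Type := FreeGroup ℤ

theorem ab_one : ab 1 = 0 := by simp [ab]

theorem ab_mul (v w : F) : ab (v * w) = ab v + ab w := by simp [ab]

theorem ab_inv (w : F) : ab w⁻¹ = -ab w := by simp [ab]

theorem ab_of (a : ℤ) : ab (.of a) = single a 1 := by simp [ab]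

theorem mapDomain_neg {X Y : Type} (f : X → Y) (d : X →₀ ℤ) : mapDomain f (-d) = -mapDomain f d :=
  map_neg (mapDomain.addMonoidHom f) d

/-- shift of the variables -/
def sh (n : ℤ) : F →* F := FreeGroup.map (· + n)

theorem ab_sh (n : ℤ) (w : F) : ab (sh n w) = mapDomain (· + n) (ab w) := by
  induction w using FreeGroup.induction_on with
  | C1 => rw [map_one, ab_one, mapDomain_zero]
  | of a => rw [sh, FreeGroup.map.of, ab_of, ab_of, mapDomain_single]
  | inv_of a ih => rw [map_inv, ab_inv, ab_inv, ih, mapDomain_neg]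
  | mul v w h1 h2 => rw [map_mul, ab_mul, ab_mul, h1, h2, mapDomain_add]

theorem evz_sh {N : Type} [Group N] (y z : N) (n : ℤ) (w : F) :
    evz y z (sh n w) = z ^ n * evz y z w * (z ^ n)⁻¹ := by
  have : (evz y z).comp (sh n) = (MulAut.conj (z ^ n)).toMonoidHom.comp (evz y z) := by
    ext a
    simp only [evz, sh, MonoidHom.comp_apply, FreeGroup.map.of, FreeGroup.lift_apply_of,
      MulEquiv.coe_toMonoidHom, MulAut.conj_apply]
    group
  exact DFunLike.congr_fun this w

theorem homext {X T : Type} [Group T] {f g : Multiplicative (X →₀ ℤ) →* T}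
    (h : ∀ x, f (ofAdd (single x 1)) = g (ofAdd (single x 1))) : f = g :=
  mulHom_ext fun x n => by
    rw [← mul_one n, ← smul_eq_mul, ← smul_single, ofAdd_zsmul, map_zpow, map_zpow, h]

theorem exhom {X T : Type} [Group T] (B : Subgroup T) (hB : Cm B B) (b : X → T)
    (hb : ∀ x, b x ∈ B) : ∃ β : Multiplicative (X →₀ ℤ) →* T,
      (∀ d, β d ∈ B) ∧ ∀ x, β (ofAdd (single x 1)) = b x := by
  let _ : CommGroup B := { (inferInstance : Group B) with
    mul_comm := fun x y => Subtype.ext (hB _ x.2 _ y.2) }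
  let l : (X →₀ ℤ) →+ Additive B :=
    (linearCombination ℤ fun x => Additive.ofMul (⟨b x, hb x⟩ : B)).toAddMonoidHom
  refine ⟨B.subtype.comp l.toMultiplicativeLeft, fun d => (l.toMultiplicativeLeft d).2, fun x => ?_⟩
  simp [l]

theorem comm_of_ab {w : F} (h : ab w = 0) : w ∈ commutator F := by
  obtain ⟨θ, -, hθ⟩ := exhom (⊤ : Subgroup (Abelianization F)) (fun a _ b _ => mul_comm a b)
    (fun a : ℤ => Abelianization.of (.of a)) fun _ => trivial
  have e : ∀ w : F, θ (ofAdd (ab w)) = Abelianization.of w := fun w => by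
    induction w using FreeGroup.induction_on with
    | C1 => rw [ab_one, ofAdd_zero, map_one, map_one]
    | of a => rw [ab_of, hθ]
    | inv_of a ih => rw [ab_inv, ofAdd_neg, map_inv, map_inv, ih]
    | mul v w h1 h2 => rw [ab_mul, ofAdd_add, map_mul, map_mul, h1, h2]
  have := e w
  rw [h, ofAdd_zero, map_one] at this
  rw [← Abelianization.ker_of]
  exact this.symm

section

variable {N : Type} [Group N] {P : Subgroup N} {y z : N}

theorem range_le (hy : y ∈ P) (hz : Nz z P) : (evz y z).range ≤ P := by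
  refine FreeGroup.range_lift_le ?_
  rintro _ ⟨a, rfl⟩
  induction a using Int.induction_on with
  | zero => simpa using hy
  | succ n ih =>
    have := (hz _ ih).1
    rw [SetLike.mem_coe]
    convert this using 1
    group
  | pred n ih =>
    have := (hz _ ih).2
    rw [SetLike.mem_coe]
    convert this using 1
    group

theorem cen (hP : P.lowerCentralSeries 2 = ⊥) (hy : y ∈ P) (hz : Nz z P) {w : F} (h : ab w = 0)
    (v : F) : evz y z w * evz y z v = evz y z v * evz y z w := by
  have h1 : evz y z w ∈ ⁅P, P⁆ := by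
    have := Subgroup.mem_map_of_mem (evz y z) (comm_of_ab h)
    rw [commutator_def, Subgroup.map_commutator, ← MonoidHom.range_eq_map] at this
    exact Subgroup.commutator_mono (range_le hy hz) (range_le hy hz) this
  have h2 : ⁅evz y z w, evz y z v⁆ ∈ P.lowerCentralSeries 2 :=
    Subgroup.commutator_mem_commutator h1 (range_le hy hz ⟨v, rfl⟩)
  rw [hP, Subgroup.mem_bot] at h2
  exact commutatorElement_eq_one_iff_mul_comm.1 h2

end

/-- the identities in `y` and `z` -/
def Idn (u : FF →₀ ℤ) (U : F × ℤ →₀ ℤ) : Prop :=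
  ∀ (N A : Type) [Group N] [AddCommGroup A] (ρ : Representation ℤ N A), Sat u ρ →
    ∀ (P : Subgroup N) (y z : N), P.lowerCentralSeries 2 = ⊥ → y ∈ P → Nz z P →
      linearCombination ℤ (fun t : F × ℤ => ρ (evz y z t.1 * z ^ t.2)) U = 0

open Classical in
/-- the indicator of the trivial class -/
noncomputable def ind (p : ℕ) (t : F × ℤ) : ℤ :=
  if t.2 = 0 ∧ ∀ a, (p : ℤ) ∣ ab t.1 a then 1 else 0

theorem lc_congr {X M : Type} [AddCommGroup M] {f g : X → M} {U : X →₀ ℤ}
    (h : ∀ t ∈ U.support, f t = g t) : linearCombination ℤ f U = linearCombination ℤ g U :=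
  Finsupp.sum_congr fun t ht => by simp only [h t ht]

theorem lc_mul {X R : Type} [Ring R] (f : X → R) (a b : R) (U : X →₀ ℤ) :
    linearCombination ℤ (fun t => a * f t * b) U = a * linearCombination ℤ f U * b := by
  simp only [linearCombination_apply, Finsupp.sum, Finset.mul_sum, Finset.sum_mul, mul_smul_comm,
    smul_mul_assoc]

/-- one step of the elimination -/
theorem step {p : ℕ} (hp : p.Prime) {u : FF →₀ ℤ} {U : F × ℤ →₀ ℤ} (hU : Idn u U) {m : ℤ}
    (hm : m ≠ 0) (w₁ : F) : ∃ U' : F × ℤ →₀ ℤ, Idn u U' ∧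
      linearCombination ℤ (ind p) U' = linearCombination ℤ (ind p) U ∧
      ∀ t' ∈ U'.support, ∃ t ∈ U.support, t'.2 = t.2 ∧
        (t.2 = m → ab t'.1 = ab t.1 ∧ ab t.1 ≠ ab w₁) := by
  classical
  obtain ⟨k, hk⟩ := Infinite.exists_notMem_finset (U.support.biUnion fun t => (ab t.1).support)
  let τ : F × ℤ → F × ℤ := fun t =>
    ((FreeGroup.of k)⁻¹ * t.1 * sh (t.2 - m) (w₁⁻¹ * .of k * w₁), t.2)
  have hτ : ∀ t, ab (τ t).1 = ab t.1 - single k 1 + single (k + (t.2 - m)) 1 := fun t => by
    simp only [τ, ab_mul, ab_inv, ab_sh, ab_of]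
    rw [neg_add_cancel_comm, mapDomain_single]
    abel
  let c : F × ℤ → Prop := fun t => t.2 = m ∧ ab t.1 = ab w₁
  let V := U.filter fun t => ¬ c t
  have hV : U.filter c + V = U := filter_add_filter_not U c
  have hs : ∀ t ∈ V.support, t ∈ U.support ∧ ¬ c t := fun t ht => by
    rwa [support_filter, Finset.mem_filter] at ht
  have hs' : ∀ t ∈ (U.filter c).support, c t := fun t ht => by
    rw [support_filter, Finset.mem_filter] at ht
    exact ht.2
  refine ⟨V - mapDomain τ V, fun N A _ _ ρ hρ P y z hP hy hz => ?_, ?_, fun t' ht' => ?_⟩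
  · have h0 := hU N A ρ hρ P y z hP hy hz
    set f : F × ℤ → Module.End ℤ A := fun t => ρ (evz y z t.1 * z ^ t.2) with hf
    have h1 : linearCombination ℤ (f ∘ τ) U = 0 := by
      have : f ∘ τ = fun t => ρ (evz y z (.of k))⁻¹ * f t *
          ρ ((z ^ m)⁻¹ * evz y z (w₁⁻¹ * .of k * w₁) * z ^ m) := by
        funext t
        simp only [Function.comp, hf, τ]
        rw [← map_mul, ← map_mul, map_mul (evz y z), map_mul (evz y z), evz_sh, map_inv]
        congr 1
        group
      rw [this, lc_mul, h0, mul_zero, zero_mul]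
    have h2 : linearCombination ℤ (f ∘ τ) (U.filter c) = linearCombination ℤ f (U.filter c) := by
      refine lc_congr fun t ht => ?_
      obtain ⟨e1, e2⟩ := hs' t ht
      have := cen hP hy hz (w := t.1 * w₁⁻¹) (by rw [ab_mul, ab_inv, e2, add_neg_cancel]) (.of k)
      simp only [Function.comp, hf, τ, e1, sub_self, evz_sh, zpow_zero, one_mul, inv_one, mul_one,
        map_mul (evz y z), map_inv] at this ⊢
      congr 2
      calc _ = (evz y z (.of k))⁻¹ * (evz y z t.1 * (evz y z w₁)⁻¹ * evz y z (.of k)) *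
          evz y z w₁ := by group
        _ = _ := by rw [this]; group
    rw [← hV, map_add] at h0 h1
    rw [map_sub, linearCombination_mapDomain, sub_eq_zero]
    rw [h2, ← h0] at h1
    exact (add_left_cancel h1).symm
  · have h1 : linearCombination ℤ (ind p ∘ τ) V = 0 := by
      rw [lc_congr (g := fun _ => 0)]
      · simp [linearCombination_apply]
      · intro t ht
        refine if_neg fun h => ?_
        have h2 : t.2 = 0 := h.1
        have h3 := h.2 k
        have h4 : ab t.1 k = 0 := by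
          by_contra h4
          exact hk (Finset.mem_biUnion.2 ⟨t, (hs t ht).1, mem_support_iff.2 h4⟩)
        rw [hτ, h2, Finsupp.add_apply, Finsupp.sub_apply, h4, single_eq_same,
          single_eq_of_ne (by omega)] at h3
        have := Int.le_of_dvd one_pos (by simpa using h3 : (p : ℤ) ∣ 1)
        have := hp.two_le
        omega
    have h2 : linearCombination ℤ (ind p) (U.filter c) = 0 := by
      rw [lc_congr (g := fun _ => 0)]
      · simp [linearCombination_apply]
      · exact fun t ht => if_neg fun h => hm ((hs' t ht).1.symm.trans h.1)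
    rw [map_sub, linearCombination_mapDomain, h1, sub_zero]
    conv_rhs => rw [← hV, map_add, h2, zero_add]
  · rcases Finset.mem_union.1 (support_sub ht') with h | h
    · exact ⟨t', (hs t' h).1, rfl, fun e => ⟨rfl, fun e' => (hs t' h).2 ⟨e, e'⟩⟩⟩
    · obtain ⟨t, ht, rfl⟩ := Finset.mem_image.1 (mapDomain_support h)
      refine ⟨t, (hs t ht).1, rfl, fun e => ⟨?_, fun e' => (hs t ht).2 ⟨e, e'⟩⟩⟩
      rw [hτ, e, sub_self, add_zero, sub_add_cancel]

theorem elim1 {p : ℕ} (hp : p.Prime) {u : FF →₀ ℤ} {m : ℤ} (hm : m ≠ 0) (M : Set ℤ)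
    (C : Finset (ℤ →₀ ℤ)) : ∀ U : F × ℤ →₀ ℤ, Idn u U →
      (∀ t ∈ U.support, t.2 ∈ M ∧ (t.2 = m → ab t.1 ∈ C)) → ∃ U' : F × ℤ →₀ ℤ, Idn u U' ∧
        linearCombination ℤ (ind p) U' = linearCombination ℤ (ind p) U ∧
        ∀ t ∈ U'.support, t.2 ∈ M ∧ t.2 ≠ m := by
  classical
  induction C using Finset.induction_on with
  | empty => exact fun U hU h => ⟨U, hU, rfl, fun t ht => ⟨(h t ht).1, by simpa using (h t ht).2⟩⟩
  | insert f C _ ih =>
    intro U hU h
    by_cases hf : ∃ w₁, ab w₁ = f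
    · obtain ⟨w₁, rfl⟩ := hf
      obtain ⟨U', h1, h2, h3⟩ := step hp hU hm w₁
      rw [← h2]
      refine ih U' h1 fun t' ht' => ?_
      obtain ⟨t, ht, e1, e2⟩ := h3 t' ht'
      rw [e1]
      refine ⟨(h t ht).1, fun e => ?_⟩
      rw [(e2 e).1]
      exact (Finset.mem_insert.1 ((h t ht).2 e)).resolve_left (e2 e).2
    · exact ih U hU fun t ht => ⟨(h t ht).1, fun e =>
        (Finset.mem_insert.1 ((h t ht).2 e)).resolve_left fun e' => hf ⟨_, e'⟩⟩

theorem elim {p : ℕ} (hp : p.Prime) {u : FF →₀ ℤ} (M : Finset ℤ) : ∀ U : F × ℤ →₀ ℤ, Idn u U →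
    (∀ t ∈ U.support, t.2 = 0 ∨ t.2 ∈ M) → ∃ U' : F × ℤ →₀ ℤ, Idn u U' ∧
      linearCombination ℤ (ind p) U' = linearCombination ℤ (ind p) U ∧
      ∀ t ∈ U'.support, t.2 = 0 := by
  classical
  induction M using Finset.induction_on with
  | empty => exact fun U hU h => ⟨U, hU, rfl, fun t ht => by simpa using h t ht⟩
  | insert m M _ ih =>
    intro U hU h
    by_cases hm : m = 0
    · exact ih U hU fun t ht => by
        have := h t ht
        rw [Finset.mem_insert, hm] at this
        tauto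
    · obtain ⟨U', h1, h2, h3⟩ := elim1 hp hm {n | n = 0 ∨ n ∈ insert m M}
        (U.support.image fun t => ab t.1) U hU
        fun t ht => ⟨h t ht, fun _ => Finset.mem_image_of_mem _ ht⟩
      rw [← h2]
      refine ih U' h1 fun t ht => ?_
      have := h3 t ht
      simp only [Set.mem_ofPred_eq, Finset.mem_insert] at this
      tauto

/-- a functional which is injective on a finite set -/
theorem exinj {G : Type} [AddCommGroup G] (h : ∀ d : G, d ≠ 0 → ∃ l : G →+ ℤ, l d ≠ 0)
    (S : Finset G) : ∃ χ : G →+ ℤ, Set.InjOn χ S := by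
  classical
  have key : ∀ D : Finset G, ∃ χ : G →+ ℤ, ∀ d ∈ D, d ≠ 0 → χ d ≠ 0 := fun D => by
    induction D using Finset.induction_on with
    | empty => exact ⟨0, by simp⟩
    | insert d D _ ih =>
      obtain ⟨χ, hχ⟩ := ih
      by_cases hd : d = 0
      · exact ⟨χ, fun e he h0 => hχ e ((Finset.mem_insert.1 he).resolve_left (hd ▸ h0)) h0⟩
      obtain ⟨l, hl⟩ := h d hd
      obtain ⟨n, hn⟩ := Infinite.exists_notMem_finset ((insert d D).image fun e => -χ e / l e)
      refine ⟨χ + n • l, fun e he h0 h1 => ?_⟩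
      simp only [AddMonoidHom.add_apply, AddMonoidHom.smul_apply, smul_eq_mul] at h1
      by_cases h2 : l e = 0
      · rw [h2, mul_zero, add_zero] at h1
        rcases Finset.mem_insert.1 he with rfl | he
        · exact hl h2
        · exact hχ e he h0 h1
      · refine hn (Finset.mem_image.2 ⟨e, he, ?_⟩)
        rw [show -χ e = n * l e by omega, Int.mul_ediv_cancel _ h2]
  obtain ⟨χ, hχ⟩ := key ((S ×ˢ S).image fun x => x.1 - x.2)
  refine ⟨χ, fun a ha b hb e => ?_⟩
  by_contra hne
  exact hχ (a - b) (Finset.mem_image.2 ⟨(a, b), Finset.mem_product.2 ⟨ha, hb⟩, rfl⟩)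
    (sub_ne_zero.2 hne) (by rw [map_sub, e, sub_self])

abbrev AA : Type := ℕ →₀ ℤ

/-- the Magnus coordinates of a word -/
theorem fox {T : Type} [Group T] (φ : FF →* T) (γ : Multiplicative AA →* T)
    (β : Multiplicative (AA × ℕ →₀ ℤ) →* T) (b : ℕ → T)
    (hφ : ∀ j, φ (.of j) = b j * γ (ofAdd (single j 1)))
    (hβ : ∀ x, β (ofAdd (single x 1)) = γ (ofAdd x.1) * b x.2 * (γ (ofAdd x.1))⁻¹) (w : FF) :
    ∃ (d : AA × ℕ →₀ ℤ) (α : AA), φ w = β (ofAdd d) * γ (ofAdd α) ∧
      ∀ (χ : AA →+ ℤ) (a : ℕ → ℤ), ∃ v : F, ab v = mapDomain (fun x => χ x.1 + a x.2) d ∧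
        ∀ (N : Type) [Group N] (y z : N),
          FreeGroup.lift (fun j => evz y z (.of (a j)) * z ^ χ (single j 1)) w =
            evz y z v * z ^ χ α := by
  induction w using FreeGroup.induction_on with
  | C1 => exact ⟨0, 0, by simp, fun χ a => ⟨1, by simp [ab_one], by simp⟩⟩
  | of j =>
    refine ⟨single (0, j) 1, single j 1, by simp [hφ, hβ], fun χ a => ⟨.of (a j), ?_, by simp⟩⟩
    simp [ab_of]
  | inv_of j _ =>
    refine ⟨-single (-single j 1, j) 1, -single j 1, ?_, fun χ a =>
      ⟨(FreeGroup.of (-χ (single j 1) + a j))⁻¹, ?_, fun N _ y z => ?_⟩⟩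
    · simp only [map_inv, hφ, hβ, ofAdd_neg]
      group
    · simp [ab_inv, ab_of, mapDomain_neg]
    · simp only [map_inv, map_neg, evz, FreeGroup.lift_apply_of]
      group
  | mul w w' ih ih' =>
    obtain ⟨d, α, h1, h2⟩ := ih
    obtain ⟨d', α', h1', h2'⟩ := ih'
    refine ⟨d + mapDomain (fun x => (α + x.1, x.2)) d', α + α', ?_, fun χ a => ?_⟩
    · have : β.comp (AddMonoidHom.toMultiplicative
          (mapDomain.addMonoidHom fun x : AA × ℕ => (α + x.1, x.2))) =
          (MulAut.conj (γ (ofAdd α))).toMonoidHom.comp β := homext fun x => by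
        simp only [MonoidHom.comp_apply, AddMonoidHom.toMultiplicative_apply_apply, toAdd_ofAdd,
          mapDomain.addMonoidHom_apply, mapDomain_single, hβ, ofAdd_add, map_mul,
          MulEquiv.coe_toMonoidHom, MulAut.conj_apply]
        group
      have e : β (ofAdd (mapDomain (fun x : AA × ℕ => (α + x.1, x.2)) d')) =
          γ (ofAdd α) * β (ofAdd d') * (γ (ofAdd α))⁻¹ := DFunLike.congr_fun this (ofAdd d')
      rw [map_mul, h1, h1', ofAdd_add, ofAdd_add, map_mul, map_mul, e]
      group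
    · obtain ⟨v, e1, e2⟩ := h2 χ a
      obtain ⟨v', e1', e2'⟩ := h2' χ a
      refine ⟨v * sh (χ α) v', ?_, fun N _ y z => ?_⟩
      · rw [ab_mul, ab_sh, e1, e1', mapDomain_add, ← mapDomain_comp, ← mapDomain_comp]
        congr 2
        funext x
        simp only [Function.comp, map_add]
        ring
      · rw [map_mul, e2, e2', map_mul, evz_sh, map_add]
        group

/-- reduction to one variable -/
theorem one {p : ℕ} {u : FF →₀ ℤ} (hu : Good p u) :
    ∃ U : F × ℤ →₀ ℤ, Idn u U ∧ ¬ (p : ℤ) ∣ linearCombination ℤ (ind p) U := by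
  classical
  obtain ⟨T, _, B, C, hB, hBB, hp, hC, hs, φ, t, ht⟩ := hu
  have : ∀ j, ∃ b ∈ B, ∃ c ∈ C, b * c = φ (.of j) := fun j =>
    Subgroup.mem_sup_of_normal_left.1 (hs ▸ Subgroup.mem_top _)
  choose b hb c hc hbc using this
  obtain ⟨γ, -, hγ⟩ := exhom C hC c hc
  obtain ⟨β, hβ', hβ⟩ := exhom B hBB
    (fun x : AA × ℕ => γ (ofAdd x.1) * b x.2 * (γ (ofAdd x.1))⁻¹) fun x => hB.conj_mem _ (hb _) _
  choose d α h1 h2 using fox φ γ β b (fun j => by rw [hγ, hbc]) hβ
  let E := u.support.biUnion fun w => (d w).support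
  obtain ⟨χ₂, hχ⟩ := exinj (G := AA × AA) (fun x hx => by
      by_contra h
      push Not at h
      refine hx (Prod.ext ?_ ?_)
      · ext j
        exact h ((applyAddHom j).comp (AddMonoidHom.fst _ _))
      · ext j
        exact h ((applyAddHom j).comp (AddMonoidHom.snd _ _)))
    (E.image (fun x => (x.1, single x.2 1)) ∪ u.support.image fun w => (α w, 0))
  let χ : AA →+ ℤ := χ₂.comp (AddMonoidHom.inl _ _)
  let a : ℕ → ℤ := fun j => χ₂ (0, single j 1)
  have hσ : Set.InjOn (fun x : AA × ℕ => χ x.1 + a x.2) E := fun x hx x' hx' e => by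
    have e' : χ₂ (x.1, single x.2 1) = χ₂ (x'.1, single x'.2 1) := by
      simpa [χ, a, ← map_add] using e
    have := hχ (Finset.mem_union_left _ (Finset.mem_image_of_mem _ hx))
      (Finset.mem_union_left _ (Finset.mem_image_of_mem _ hx')) e'
    rw [Prod.mk.injEq] at this
    exact Prod.ext this.1 (single_left_injective one_ne_zero this.2)
  choose v h3 h4 using fun w => h2 w χ a
  let κ : FF → (ℤ → ZMod p) × ℤ := fun w => (fun i => (ab (v w) i : ZMod p), χ (α w))
  have hκ : ∀ w w', κ w = κ w' ↔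
      χ (α w) - χ (α w') = 0 ∧ ∀ i, (p : ℤ) ∣ ab ((v w')⁻¹ * v w) i := fun w w' => by
    simp only [κ, Prod.mk.injEq, funext_iff, sub_eq_zero, ab_mul, ab_inv, neg_add_eq_sub,
      Finsupp.sub_apply, ← ZMod.intCast_eq_intCast_iff_dvd_sub]
    exact ⟨fun h => ⟨h.2, fun i => (h.1 i).symm⟩, fun h => ⟨fun i => (h.2 i).symm, h.1⟩⟩
  have sep : ∀ w ∈ u.support, ∀ w' ∈ u.support, κ w = κ w' → φ w = φ w' := fun w hw w' hw' e => by
    obtain ⟨e1, e2⟩ := (hκ w w').1 e
    have e3 : α w = α w' := by
      have := hχ (Finset.mem_union_right _ (Finset.mem_image_of_mem _ hw))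
        (Finset.mem_union_right _ (Finset.mem_image_of_mem _ hw'))
        (show χ₂ (α w, 0) = χ₂ (α w', 0) from sub_eq_zero.1 e1)
      exact congrArg Prod.fst this
    have s1 : ∀ w ∈ u.support, ((d w).support : Set (AA × ℕ)) ⊆ E := fun w hw x hx =>
      Finset.mem_coe.2 (Finset.mem_biUnion.2 ⟨w, hw, hx⟩)
    have e4 : ∀ x, (p : ℤ) ∣ (d w - d w') x := fun x => by
      by_cases hx : x ∈ (E : Set (AA × ℕ))
      · have := e2 (χ x.1 + a x.2)
        rwa [ab_mul, ab_inv, Finsupp.add_apply, Finsupp.neg_apply, h3, h3,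
          mapDomain_apply' _ _ (s1 w hw) hσ hx, mapDomain_apply' _ _ (s1 w' hw') hσ hx,
          neg_add_eq_sub] at this
      · rw [Finsupp.sub_apply, notMem_support_iff.1 fun h => hx (s1 w hw h),
          notMem_support_iff.1 fun h => hx (s1 w' hw' h), sub_zero]
        exact dvd_zero _
    have e5 : d w = d w' + p • (d w - d w').mapRange (fun n : ℤ => n / p) (by simp) := by
      ext x
      rw [Finsupp.add_apply, Finsupp.smul_apply, mapRange_apply, nsmul_eq_mul,
        Int.mul_ediv_cancel' (e4 x), Finsupp.sub_apply]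
      ring
    rw [h1, h1, e3, e5, ofAdd_add, map_mul, ofAdd_nsmul, map_pow, hp _ (hβ' _), mul_one]
  have : ∃ w₀ ∈ u.support, ¬ (p : ℤ) ∣ ∑ w ∈ u.support with κ w = κ w₀, u w := by
    by_contra h
    push Not at h
    apply ht
    have e : mapDomain φ u t = ∑ w ∈ u.support with φ w = t, u w := by
      simp [mapDomain, Finsupp.sum, single_apply, Finset.sum_filter]
    rw [e, ← Finset.sum_fiberwise_of_maps_to (g := κ) fun w hw => Finset.mem_image_of_mem κ hw]
    refine Finset.dvd_sum fun k hk => ?_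
    obtain ⟨w₀, hw₀, rfl⟩ := Finset.mem_image.1 hk
    obtain ⟨e1, e2⟩ := Finset.mem_filter.1 hw₀
    have e3 : (u.support.filter fun w => φ w = t).filter (fun w => κ w = κ w₀) =
        u.support.filter fun w => κ w = κ w₀ := by
      ext w
      simp only [Finset.mem_filter]
      exact ⟨fun h => ⟨h.1.1, h.2⟩, fun h => ⟨⟨h.1, (sep w h.1 w₀ e1 h.2).trans e2⟩, h.2⟩⟩
    rw [e3]
    exact h w₀ e1
  obtain ⟨w₀, -, h0⟩ := this
  refine ⟨mapDomain (fun w => ((v w₀)⁻¹ * v w, χ (α w) - χ (α w₀))) u,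
    fun N A _ _ ρ hρ P y z _ _ _ => ?_, ?_⟩
  · rw [linearCombination_mapDomain]
    have h5 : linearCombination ℤ (fun w => ρ (evz y z (v w) * z ^ χ (α w))) u = 0 := by
      simp only [← h4]
      exact hρ _
    have : ((fun t : F × ℤ => ρ (evz y z t.1 * z ^ t.2)) ∘
        fun w => ((v w₀)⁻¹ * v w, χ (α w) - χ (α w₀))) = fun w => ρ (evz y z (v w₀))⁻¹ *
          ρ (evz y z (v w) * z ^ χ (α w)) * ρ (z ^ χ (α w₀))⁻¹ := by
      funext w
      simp only [Function.comp]
      rw [← map_mul, ← map_mul, map_mul (evz y z), map_inv]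
      congr 1
      group
    rw [this, lc_mul, h5, mul_zero, zero_mul]
  · rw [linearCombination_mapDomain]
    convert h0 using 2
    simp only [linearCombination_apply, Finsupp.sum, Function.comp, ind, Finset.sum_filter, hκ,
      smul_eq_mul, mul_ite, mul_one, mul_zero]

/-- the substitution `y ↦ y⁻¹ z y z⁻¹` -/
def sb : F →* F := FreeGroup.lift fun a => (FreeGroup.of a)⁻¹ * .of (a + 1)

theorem ab_sb (w : F) : ab (sb w) = ab (sh 1 w) - ab w := by
  induction w using FreeGroup.induction_on with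
  | C1 => simp [ab_one]
  | of a => simp only [sb, sh, FreeGroup.map.of, FreeGroup.lift_apply_of, ab_mul, ab_inv]; abel
  | inv_of a ih => simp only [map_inv, ab_inv, ih]; abel
  | mul v w h1 h2 => simp only [map_mul, ab_mul, h1, h2]; abel

theorem evz_sb {N : Type} [Group N] (y z : N) (w : F) :
    evz y z (sb w) = evz (y⁻¹ * (z * y * z⁻¹)) z w := by
  have : (evz y z).comp sb = evz (y⁻¹ * (z * y * z⁻¹)) z := by
    ext a
    simp only [evz, sb, MonoidHom.comp_apply, FreeGroup.lift_apply_of, map_mul, map_inv]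
    group
  exact DFunLike.congr_fun this w

theorem dvd_sb (p : ℤ) (w : F) : (∀ a, p ∣ ab (sb w) a) ↔ ∀ a, p ∣ ab w a := by
  have e : ∀ a, ab (sb w) (a + 1) = ab w a - ab w (a + 1) := fun a => by
    rw [ab_sb, ab_sh, Finsupp.sub_apply, mapDomain_apply (add_left_injective 1)]
  refine ⟨fun h a => ?_, fun h a => ?_⟩
  · have h1 : ∀ a, p ∣ ab w a - ab w 0 := fun a => by
      induction a using Int.induction_on with
      | zero => simp
      | succ n ih =>
        have := dvd_sub ih (e n ▸ h (n + 1))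
        rwa [sub_sub_sub_cancel_left] at this
      | pred n ih =>
        have h2 := h (-n - 1 + 1)
        rw [e, sub_add_cancel] at h2
        have := dvd_add h2 ih
        rwa [sub_add_sub_cancel] at this
    obtain ⟨j, hj⟩ := Infinite.exists_notMem_finset (ab w).support
    have := dvd_sub (h1 a) (h1 j)
    rwa [notMem_support_iff.1 hj, sub_sub_sub_cancel_right, sub_zero] at this
  · rw [← sub_add_cancel a 1, e]
    exact dvd_sub (h _) (h _)

end Id0A

open Finsupp Id0A in
theorem id0 : SID0 := by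
  classical
  intro p u hp hu
  obtain ⟨U, h1, h2⟩ := one hu
  obtain ⟨V, h3, h4, h5⟩ := elim hp (U.support.image Prod.snd) U h1
    fun t ht => Or.inr (Finset.mem_image_of_mem _ ht)
  refine ⟨mapDomain (fun t => sb t.1) V, 1, fun w hw => ?_, ?_, fun N A _ _ ρ hρ P y z hP hy hz => ?_⟩
  · obtain ⟨t, -, rfl⟩ := Finset.mem_image.1 (mapDomain_support hw)
    rw [ab_sb, ab_sh, sum_sub_index fun _ _ _ => rfl, sum_mapDomain_index (fun _ => rfl)
      fun _ _ _ => rfl, sub_self]
  · rw [← h4, lc_congr (g := (fun w => if ∀ a, (p : ℤ) ∣ ab w a then 1 else 0) ∘ fun t => sb t.1),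
      ← linearCombination_mapDomain] at h2
    · convert h2 using 2
      simp only [linearCombination_apply, Finsupp.sum, Finset.sum_filter, ab_one, smul_eq_mul,
        mul_ite, mul_one, mul_zero, Finsupp.coe_zero, Pi.zero_apply, sub_zero]
    · intro t ht
      simp only [ind, h5 t ht, true_and, Function.comp, dvd_sb]
  · have := h3 N A ρ hρ P (y⁻¹ * (z * y * z⁻¹)) z hP (mul_mem (inv_mem hy) (hz y hy).1) hz
    rw [lc_congr (g := (fun w => ρ (evz y z w)) ∘ fun t => sb t.1),
      ← linearCombination_mapDomain] at this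
    · exact this
    · intro t ht
      simp only [h5 t ht, zpow_zero, mul_one, Function.comp, evz_sb]

end Pool.Agent.MP_5c28a4_al.H89S
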