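import Pool.Agent.MP_5c28a4_al.H13S.Base

/-!
Lowering the class of a power subgroup: one step in class two, and class at least three.
-/

set_option autoImplicit false

namespace Pool.Agent.MP_5c28a4_al.H89S.StrA

open scoped commutatorElement

theorem t2a (hV : BVn) (hC : XCom) (hG : XGen) (hA : XAlg) (hB : XT2b) : XT2a := by
  rintro Λ u ⟨r, w, a, n, hw, ha, hn, hid⟩ N A _ _ ρ K D c m v hN hS hρ hK hb hm h2 hD hD' hv
  have hP : (pw K m).Normal := pw_normal hK.1 m
  obtain ⟨M, T, hM, hT, hT'⟩ := hG N K D c m hN hK hb hm hD hD'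
  obtain ⟨m', D₂, n', S, hm', hD₂, hD₂', hS', hle⟩ := hA N K (pw K m) ⁅pw K m, pw K m⁆ D c r w hN
    hK hb hP inferInstance (Subgroup.commutator_le_left _ _) le_rfl (pw_le K m) hD hD' hw
  have h1 : (itc (pw (pw K m) m') D₂ n').Normal := itc_normal (pw_normal hP m') hD₂ n'
  have h1' : itc (pw (pw K m) m') D₂ n' ≤ pw K m := itc_le hP (pw_le _ _) _ _
  obtain ⟨j, hj, ht⟩ := hB Λ N A ρ r w a n (pw K m) _ D v M T S ha hn hP h2
    (fun z y c hy hc => (hid N A ρ hρ).2 _ z y c h2 (nz_of_normal hP z) hy hc) hD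
    ((Group.fg_iff_subgroup_fg D).1 inferInstance) hv hT hM hT' hS' h1 h1' hle
  have hY := hV.inf N K D₂ hK (coVN_of_fi hD₂ hD₂')
  obtain ⟨n₁, hn₁, hx⟩ := hC.sh N (K ⊓ D₂) D₂ _ (m * m') n' hS hY.1 hD₂ h1 inf_le_right
    (Nat.mul_pos hm hm')
    (itc_mono ((pw_mul_le _ m m').trans (pw_mono (pw_mono inf_le_left m) m')) le_rfl n')
  have h3 := (pw_mul_le _ n₁ j).trans (pw_mono (pw_le_of hx) j)
  exact ⟨_, n₁ * j, itc_le hK.1 inf_le_left _ _, hV.itc N _ D₂ n' hY hD₂ hD₂', Nat.mul_pos hn₁ hj,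
    h3.trans ((pw_le _ _).trans h1'),
    tame_mono ht (itc_mono (Subgroup.commutator_mono h3 h3) le_rfl v)⟩

theorem g3 (hV : BVn) (hB : BCom) (hS : XSec) (hC : XCom) : XG3 := by
  intro N _ K D m m' d v hK hD hD' hm hm' h3 hv
  have hP : (pw K m).Normal := pw_normal hK.1 m
  have hL := lcs_normal hD v
  set P := pw K m with hPd
  have hn := lcs_normal hP (d + 1)
  have hle : P.lowerCentralSeries (d + 1) ≤ P := P.lowerCentralSeries_antitone (Nat.zero_le _)
  have hX := pw_normal hn m'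
  obtain ⟨M, _, σ, f, hf⟩ := hS N _ ⊥ hX inferInstance bot_le
    ((Subgroup.commutator_mono (pw_le _ _) (pw_le _ _)).trans ((hB.add N P _ _).trans
      ((P.lowerCentralSeries_antitone (by omega)).trans h3.le)))
  have hk : Kill σ 1 D (v + 1) := kill_iff.2 fun l hl hl' => by
    ext a
    obtain ⟨x, hx, rfl⟩ := hf.surj a
    obtain ⟨y, hy, e⟩ := hf.wd_itc hX le_rfl l hl' hx
    rw [hl, itc_succ, hv, Subgroup.commutator_bot_left, Subgroup.mem_bot] at hy
    rw [one_smul, ← e, hy, hf.one, LinearMap.zero_apply]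
  have he := hC.e1 N _ (P ⊓ D.lowerCentralSeries v) ⊥ m' hn inferInstance inferInstance
    ((Subgroup.commutator_mono (Subgroup.commutator_mono le_rfl inf_le_left) hle).trans h3.le)
    fun y hy g hg => by
      have hx := pow_mem_pw hy m'
      have := hf.inj (hX.conj_mem _ hx g) hx (by rw [hf.conj g _ hx, hB.stab N M σ D v hk g hg.2]; rfl)
      rw [Subgroup.mem_bot, commutatorElement_eq_one_iff_mul_comm]
      exact (mul_inv_eq_iff_eq_mul.1 this).symm
  have h1 : pw (K ⊓ D.lowerCentralSeries v) m ≤ P := pw_mono inf_le_left m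
  refine ⟨K ⊓ D.lowerCentralSeries v, m * m', inf_le_left, hV.inf N _ _ hK (hV.lcs N D v hD hD'),
    Nat.mul_pos hm hm', eq_bot_iff.2 ((lcs_mono (pw_mul_le _ m m') _).trans
      ((hB.top N _ _ _).trans (sup_le (pw_le_of fun x hx => ?_) ((lcs_mono h1 _).trans h3.le))))⟩
  have := he x (Subgroup.commutator_mono (lcs_mono h1 _)
    (le_inf h1 ((pw_le _ _).trans inf_le_right)) hx)
  rw [pow_succ', pow_mul]
  exact pow_mem this _

end Pool.Agent.MP_5c28a4_al.H89S.StrA
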